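import Mathlib

/-!
# A non-constant meromorphic solution of `f ^ 8 + g ^ 8 + h ^ 8 = 1`

With the classical theta functions `θ₁, …, θ₄` of the lattice `ℤ + τ ℤ`, where `τ = i t` is chosen
such that `8 θ₂(0 | 2 τ) ^ 4 = θ₃(0 | 2 τ) ^ 4`, one has

  (θ₂ + θ₁) ^ 8 + (θ₂ - θ₁) ^ 8 = (θ₃ + i θ₄) ^ 8 + (θ₃ - i θ₄) ^ 8.

In other words the Fermat surface of degree `8` contains a smooth elliptic quartic curve (an
intersection of two quadrics).
-/

open Complex Filter Topology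
open scoped Real

namespace Pool.Agent.Results.MP_99c308_an.DegreeEight

/-- `P z = θ₃(z | τ)` -/
noncomputable def P (τ z : ℂ) : ℂ := jacobiTheta₂ z τ
/-- `Q z = θ₄(z | τ)` -/
noncomputable def Q (τ z : ℂ) : ℂ := P τ (z + 1 / 2)
/-- `R z = θ₂(z | τ)` -/
noncomputable def R (τ z : ℂ) : ℂ :=
  cexp (π * I * τ / 4 + π * I * z) * jacobiTheta₂ (z + τ / 2) τ
/-- `S z = -θ₁(z | τ)` -/
noncomputable def S (τ z : ℂ) : ℂ := R τ (z + 1 / 2)
/-- `A z = θ₃(2z | 2τ)` -/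
noncomputable def A (τ z : ℂ) : ℂ := jacobiTheta₂ (2 * z) (2 * τ)
/-- `B z = θ₂(2z | 2τ)` -/
noncomputable def B (τ z : ℂ) : ℂ :=
  cexp (2 * π * I * z + π * I * τ / 2) * jacobiTheta₂ (2 * z + τ) (2 * τ)

/-- splitting of a sum over pairs of integers by parity of the sum -/
lemma hasSum_parity {f : ℤ × ℤ → ℂ} {x y : ℂ}
    (h0 : HasSum (fun p : ℤ × ℤ => f (p.1 + p.2, p.1 - p.2)) x)
    (h1 : HasSum (fun p : ℤ × ℤ => f (p.1 + p.2 + 1, p.1 - p.2)) y) : HasSum f (x + y) := by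
  set e0 : ℤ × ℤ → ℤ × ℤ := fun p => (p.1 + p.2, p.1 - p.2) with he0
  set e1 : ℤ × ℤ → ℤ × ℤ := fun p => (p.1 + p.2 + 1, p.1 - p.2) with he1
  have i0 : Function.Injective e0 := by
    rintro ⟨a, b⟩ ⟨c, d⟩ h
    simp only [he0, Prod.mk.injEq] at h
    ext <;> simp only <;> omega
  have i1 : Function.Injective e1 := by
    rintro ⟨a, b⟩ ⟨c, d⟩ h
    simp only [he1, Prod.mk.injEq] at h
    ext <;> simp only <;> omega
  have hc : IsCompl (Set.range e0) (Set.range e1) := by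
    constructor
    · rw [Set.disjoint_left]
      rintro ⟨m, n⟩ ⟨⟨a, b⟩, h⟩ ⟨⟨c, d⟩, h'⟩
      simp only [he0, he1, Prod.mk.injEq] at h h'
      omega
    · rw [codisjoint_iff_le_sup]
      rintro ⟨m, n⟩ -
      rcases Int.even_or_odd (m + n) with ⟨k, hk⟩ | ⟨k, hk⟩
      · left
        exact ⟨(k, m - k), by simp only [he0, Prod.mk.injEq]; omega⟩
      · right
        exact ⟨(k, m - k - 1), by simp only [he1, Prod.mk.injEq]; omega⟩
  have H0 : HasSum (f ∘ ((↑) : Set.range e0 → ℤ × ℤ)) x :=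
    (i0.hasSum_range_iff).2 h0
  have H1 : HasSum (f ∘ ((↑) : Set.range e1 → ℤ × ℤ)) y :=
    (i1.hasSum_range_iff).2 h1
  exact H0.add_isCompl hc H1

lemma theta_mul {z w τ : ℂ} (hτ : 0 < τ.im) :
    HasSum (fun p : ℤ × ℤ => jacobiTheta₂_term p.1 z τ * jacobiTheta₂_term p.2 w τ)
      (jacobiTheta₂ z τ * jacobiTheta₂ w τ) := by
  have h1 := hasSum_jacobiTheta₂_term z hτ
  have h2 := hasSum_jacobiTheta₂_term w hτ
  have s1 : Summable fun n => ‖jacobiTheta₂_term n z τ‖ := h1.summable.norm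
  have s2 : Summable fun n => ‖jacobiTheta₂_term n w τ‖ := h2.summable.norm
  have := (summable_mul_of_summable_norm s1 s2).hasSum
  rw [← tsum_mul_tsum_of_summable_norm s1 s2] at this
  rw [h1.tsum_eq, h2.tsum_eq] at this
  exact this

lemma im_two_mul {τ : ℂ} (hτ : 0 < τ.im) : 0 < (2 * τ).im := by simp [hτ]

/-- the basic quadratic identity for theta functions -/
lemma P_sq {τ : ℂ} (hτ : 0 < τ.im) (z : ℂ) :
    P τ z ^ 2 = A τ 0 * A τ z + B τ 0 * B τ z := by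
  have h := theta_mul (z := z) (w := z) hτ
  have h2 := im_two_mul hτ
  have hA := theta_mul (z := 2 * z) (w := 0) h2
  have hB := (theta_mul (z := 2 * z + τ) (w := τ) h2).mul_left (cexp (2 * π * I * z + π * I * τ))
  have hsum := hasSum_parity (f := fun p : ℤ × ℤ => jacobiTheta₂_term p.1 z τ * jacobiTheta₂_term p.2 z τ)
    (x := jacobiTheta₂ (2 * z) (2 * τ) * jacobiTheta₂ 0 (2 * τ))
    (y := cexp (2 * π * I * z + π * I * τ) *
      (jacobiTheta₂ (2 * z + τ) (2 * τ) * jacobiTheta₂ τ (2 * τ))) ?_ ?_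
  · have := h.unique hsum
    unfold P A B
    rw [sq, this]
    simp only [mul_zero, zero_add]
    rw [mul_comm (jacobiTheta₂ (2 * z) (2 * τ))]
    congr 1
    have e : cexp (2 * π * I * z + π * I * τ) = cexp (π * I * τ / 2) * cexp (2 * π * I * z + π * I * τ / 2) := by
      rw [← Complex.exp_add]; congr 1; ring
    rw [e]; ring
  · convert hA using 2 with p
    simp only [jacobiTheta₂_term]
    rw [← Complex.exp_add, ← Complex.exp_add]
    congr 1
    push_cast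
    ring
  · have key : (fun p : ℤ × ℤ => (fun p : ℤ × ℤ => jacobiTheta₂_term p.1 z τ * jacobiTheta₂_term p.2 z τ)
        (p.1 + p.2 + 1, p.1 - p.2)) = fun p : ℤ × ℤ => cexp (2 * π * I * z + π * I * τ) *
        (jacobiTheta₂_term p.1 (2 * z + τ) (2 * τ) * jacobiTheta₂_term p.2 τ (2 * τ)) := ?_
    · rw [key]; exact hB
    funext p
    simp only [jacobiTheta₂_term]
    rw [← Complex.exp_add, ← Complex.exp_add, ← Complex.exp_add]
    congr 1
    push_cast
    ring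

lemma A_half (τ z : ℂ) : A τ (z + 1 / 2) = A τ z := by
  unfold A
  rw [show 2 * (z + 1 / 2) = 2 * z + 1 by ring, jacobiTheta₂_add_left]

lemma B_half (τ z : ℂ) : B τ (z + 1 / 2) = -B τ z := by
  unfold B
  rw [show 2 * (z + 1 / 2) + τ = (2 * z + τ) + 1 by ring, jacobiTheta₂_add_left,
    show 2 * π * I * (z + 1 / 2) + π * I * τ / 2 = (2 * π * I * z + π * I * τ / 2) + π * I by ring,
    Complex.exp_add, Complex.exp_pi_mul_I]
  ring

lemma A_tau (τ z : ℂ) : A τ (z + τ / 2) = cexp (-(2 * π * I * z + π * I * τ / 2)) * B τ z := by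
  unfold A B
  rw [← mul_assoc, ← Complex.exp_add, neg_add_cancel, Complex.exp_zero, one_mul]
  congr 1; ring

lemma B_tau (τ z : ℂ) : B τ (z + τ / 2) = cexp (-(2 * π * I * z + π * I * τ / 2)) * A τ z := by
  unfold A B
  rw [show 2 * (z + τ / 2) + τ = 2 * z + 2 * τ by ring, jacobiTheta₂_add_left', ← mul_assoc,
    ← Complex.exp_add]
  congr 2
  ring

lemma Q_sq {τ : ℂ} (hτ : 0 < τ.im) (z : ℂ) :
    Q τ z ^ 2 = A τ 0 * A τ z - B τ 0 * B τ z := by
  unfold Q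
  rw [P_sq hτ, A_half, B_half]; ring

lemma R_sq {τ : ℂ} (hτ : 0 < τ.im) (z : ℂ) :
    R τ z ^ 2 = A τ 0 * B τ z + B τ 0 * A τ z := by
  have h := P_sq hτ (z + τ / 2)
  rw [A_tau, B_tau] at h
  unfold R
  rw [mul_pow]
  unfold P at h
  rw [h, sq, ← Complex.exp_add]
  have e : cexp (π * I * τ / 4 + π * I * z + (π * I * τ / 4 + π * I * z)) *
      cexp (-(2 * π * I * z + π * I * τ / 2)) = 1 := by
    rw [← Complex.exp_add, ← Complex.exp_zero]; congr 1; ring
  linear_combination (A τ 0 * B τ z + B τ 0 * A τ z) * e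

lemma S_sq {τ : ℂ} (hτ : 0 < τ.im) (z : ℂ) :
    S τ z ^ 2 = -(A τ 0 * B τ z) + B τ 0 * A τ z := by
  unfold S
  rw [R_sq hτ, A_half, B_half]; ring

/-- the main identity -/
lemma main_identity {τ : ℂ} (hτ : 0 < τ.im) (hk : 8 * B τ 0 ^ 4 = A τ 0 ^ 4) (z : ℂ) :
    (R τ z + S τ z) ^ 8 + (R τ z - S τ z) ^ 8 - (P τ z - I * Q τ z) ^ 8 =
      (P τ z + I * Q τ z) ^ 8 := by
  have hP := P_sq hτ z
  have hQ := Q_sq hτ z
  have hR := R_sq hτ z
  have hS := S_sq hτ z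
  set a := A τ 0
  set b := B τ 0
  set X := A τ z
  set Y := B τ z
  set p := P τ z
  set q := Q τ z
  set r := R τ z
  set s := S τ z
  have e1 : (r + s) ^ 8 + (r - s) ^ 8 =
      2 * ((r ^ 2) ^ 4 + 28 * (r ^ 2) ^ 3 * s ^ 2 + 70 * (r ^ 2) ^ 2 * (s ^ 2) ^ 2 +
        28 * (r ^ 2) * (s ^ 2) ^ 3 + (s ^ 2) ^ 4) := by ring
  have e2 : (p + I * q) ^ 8 + (p - I * q) ^ 8 =
      2 * ((p ^ 2) ^ 4 - 28 * (p ^ 2) ^ 3 * q ^ 2 + 70 * (p ^ 2) ^ 2 * (q ^ 2) ^ 2 -
        28 * (p ^ 2) * (q ^ 2) ^ 3 + (q ^ 2) ^ 4) := by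
    have hI : I ^ 2 = -1 := Complex.I_sq
    have hI4 : I ^ 4 = 1 := Complex.I_pow_four
    have hI6 : I ^ 6 = -1 := by rw [show (6:ℕ) = 4 + 2 from rfl, pow_add, hI4, hI]; ring
    have hI8 : I ^ 8 = 1 := by rw [show (8:ℕ) = 4 + 4 from rfl, pow_add, hI4]; ring
    linear_combination (56 * p ^ 6 * q ^ 2) * hI + (140 * p ^ 4 * q ^ 4) * hI4 +
      (56 * p ^ 2 * q ^ 6) * hI6 + (2 * q ^ 8) * hI8
  have e3 : (r + s) ^ 8 + (r - s) ^ 8 = (p + I * q) ^ 8 + (p - I * q) ^ 8 := by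
    rw [e1, e2, hP, hQ, hR, hS]
    linear_combination (32 * X ^ 4 - 32 * Y ^ 4) * hk
  linear_combination e3


/-- the real theta constant -/
noncomputable def phi (t : ℝ) : ℝ := ∑' n : ℤ, Real.exp (-π * t * (n : ℝ) ^ 2)

lemma theta_term_real (t : ℝ) (n : ℤ) :
    jacobiTheta₂_term n 0 (I * t) = ((Real.exp (-π * t * (n : ℝ) ^ 2) : ℝ) : ℂ) := by
  unfold jacobiTheta₂_term
  push_cast
  congr 1
  have hI : I * I = -1 := Complex.I_mul_I
  linear_combination (π * n ^ 2 * t) * hI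

lemma theta_real (t : ℝ) : jacobiTheta₂ 0 (I * t) = (phi t : ℂ) := by
  unfold jacobiTheta₂ phi
  rw [Complex.ofReal_tsum]
  exact tsum_congr fun n => theta_term_real t n

lemma im_It {t : ℝ} (ht : 0 < t) : 0 < (I * (t : ℂ)).im := by simpa using ht

lemma summable_phi {t : ℝ} (ht : 0 < t) : Summable fun n : ℤ => Real.exp (-π * t * (n : ℝ) ^ 2) := by
  have h := (hasSum_jacobiTheta₂_term 0 (im_It ht)).summable
  have h2 : Summable fun n : ℤ => ((Real.exp (-π * t * (n : ℝ) ^ 2) : ℝ) : ℂ) := by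
    refine h.congr fun n => ?_
    exact (theta_term_real t n)
  exact_mod_cast h2

lemma one_le_phi {t : ℝ} (ht : 0 < t) : 1 ≤ phi t := by
  have := (summable_phi ht).le_tsum (0 : ℤ) (fun j _ => (Real.exp_pos _).le)
  simpa [phi] using this

lemma continuousOn_phi : ContinuousOn phi (Set.Ioi 0) := by
  intro t ht
  have h1 : ContinuousAt (fun s : ℝ => (jacobiTheta₂ 0 (I * s)).re) t := by
    have h2 := continuousAt_jacobiTheta₂ 0 (im_It ht)
    have h3 : ContinuousAt (fun s : ℝ => ((0 : ℂ), I * (s : ℂ))) t := by fun_prop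
    have h4 : ContinuousAt (fun s : ℝ => jacobiTheta₂ 0 (I * s)) t :=
      ContinuousAt.comp (f := fun s : ℝ => ((0 : ℂ), I * (s : ℂ))) (g := fun p : ℂ × ℂ => jacobiTheta₂ p.1 p.2)
        h2 h3
    exact Complex.continuous_re.continuousAt.comp h4
  have h5 : (fun s : ℝ => (jacobiTheta₂ 0 (I * s)).re) = phi := by
    funext s; rw [theta_real]; simp
  rw [h5] at h1
  exact h1.continuousWithinAt

lemma exp_neg_pi_le : Real.exp (-π) ≤ 1 / 20 := by
  have h1 : Real.exp (-π) ≤ Real.exp (-3) := Real.exp_le_exp.2 (by linarith [Real.pi_gt_three])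
  have h2 : Real.exp (-3) = (Real.exp 1 ^ 3)⁻¹ := by
    rw [← Real.exp_nat_mul, Real.exp_neg]; norm_num
  have h3 : (20 : ℝ) ≤ Real.exp 1 ^ 3 := by
    have := Real.exp_one_gt_d9
    have h4 : (2.7182 : ℝ) ^ 3 ≤ Real.exp 1 ^ 3 := pow_le_pow_left₀ (by norm_num) (by linarith) 3
    linarith [show (20 : ℝ) ≤ (2.7182 : ℝ) ^ 3 by norm_num]
  rw [h2] at h1
  refine h1.trans ?_
  rw [one_div]
  exact inv_anti₀ (by norm_num) h3

lemma phi_one_le : phi 1 ≤ 1 + 2 / 19 := by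
  have h := norm_jacobiTheta_sub_one_le (τ := I) (by simp)
  rw [jacobiTheta_eq_jacobiTheta₂] at h
  have h1 := theta_real 1
  rw [Complex.ofReal_one, mul_one] at h1
  rw [h1] at h
  have h2 : ‖(phi 1 : ℂ) - 1‖ = |phi 1 - 1| := by
    rw [← Complex.ofReal_one, ← Complex.ofReal_sub, Complex.norm_real, Real.norm_eq_abs]
  rw [h2, Complex.I_im, mul_one] at h
  have h3 := exp_neg_pi_le
  have h4 : 2 / (1 - Real.exp (-π)) * Real.exp (-π) ≤ 2 / (1 - 1 / 20) * (1 / 20) := by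
    have hp := Real.exp_pos (-π)
    gcongr
  have h5 := (abs_le.1 h).2
  norm_num at h4
  linarith

lemma phi_half : phi (1 / 2) ^ 2 = 2 * phi 2 ^ 2 := by
  have h := Real.tsum_exp_neg_mul_int_sq (a := 1 / 2) (by norm_num)
  have h1 : phi (1 / 2) = ∑' n : ℤ, Real.exp (-π * (1 / 2) * (n : ℝ) ^ 2) := rfl
  have h2 : phi 2 = ∑' n : ℤ, Real.exp (-π / (1 / 2) * (n : ℝ) ^ 2) := by
    unfold phi
    refine tsum_congr fun n => ?_
    congr 1; ring
  rw [← h1, ← h2, ← Real.sqrt_eq_rpow] at h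
  rw [h, mul_pow, div_pow, Real.sq_sqrt (by norm_num)]
  norm_num

lemma phi_anti {s t : ℝ} (hs : 0 < s) (hst : s ≤ t) : phi t ≤ phi s := by
  unfold phi
  refine (summable_phi (hs.trans_le hst)).tsum_le_tsum (fun n => ?_) (summable_phi hs)
  refine Real.exp_le_exp.2 ?_
  have h1 : 0 ≤ π * (n : ℝ) ^ 2 := by positivity
  nlinarith

/-- the modulus condition is satisfied for some `τ = i t` -/
lemma exists_t : ∃ t : ℝ, 0 < t ∧ 8 * (phi t ^ 2 - phi (2 * t) ^ 2) ^ 2 = phi (2 * t) ^ 4 := by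
  set G : ℝ → ℝ := fun t => phi (2 * t) ^ 4 - 8 * (phi t ^ 2 - phi (2 * t) ^ 2) ^ 2 with hG
  have hc : ContinuousOn G (Set.Icc (1 / 2) 1) := by
    have c1 : ContinuousOn phi (Set.Icc (1 / 2) 1) :=
      continuousOn_phi.mono fun x hx => lt_of_lt_of_le (by norm_num) hx.1
    have c2 : ContinuousOn (fun t => phi (2 * t)) (Set.Icc (1 / 2) 1) := by
      refine continuousOn_phi.comp (by fun_prop) ?_
      intro x hx
      have := hx.1
      simp only [Set.mem_Ioi]; linarith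
    simp only [hG]
    fun_prop
  have h1 : 0 ≤ G 1 := by
    simp only [hG, mul_one]
    have a1 := phi_one_le
    have a2 := one_le_phi (t := 1) (by norm_num)
    have a3 := one_le_phi (t := 2) (by norm_num)
    have a4 := phi_anti (s := 1) (t := 2) (by norm_num) (by norm_num)
    have b1 : phi 1 ^ 2 ≤ 441 / 361 := by nlinarith
    have b2 : 1 ≤ phi 2 ^ 2 := by nlinarith
    have b3 : 0 ≤ phi 1 ^ 2 - phi 2 ^ 2 := by nlinarith
    have b4 : phi 1 ^ 2 - phi 2 ^ 2 ≤ 80 / 361 := by linarith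
    have b5 : (phi 1 ^ 2 - phi 2 ^ 2) ^ 2 ≤ (80 / 361) ^ 2 := pow_le_pow_left₀ b3 b4 2
    have b6 : 1 ≤ phi 2 ^ 4 := by
      have : phi 2 ^ 4 = (phi 2 ^ 2) ^ 2 := by ring
      rw [this]; nlinarith
    norm_num at b5
    linarith
  have h2 : G (1 / 2) ≤ 0 := by
    simp only [hG]
    rw [phi_half]
    norm_num
    have a1 := phi_one_le
    have a2 := one_le_phi (t := 1) (by norm_num)
    have a3 := one_le_phi (t := 2) (by norm_num)
    have b1 : phi 1 ^ 2 ≤ 441 / 361 := by nlinarith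
    have b2 : 1 ≤ phi 2 ^ 2 := by nlinarith
    have b3 : (7 / 10 : ℝ) ≤ 2 * phi 2 ^ 2 - phi 1 ^ 2 := by linarith
    have b4 : (7 / 10 : ℝ) ^ 2 ≤ (2 * phi 2 ^ 2 - phi 1 ^ 2) ^ 2 := pow_le_pow_left₀ (by norm_num) b3 2
    have b5 : phi 1 ^ 4 ≤ (441 / 361) ^ 2 := by
      have : phi 1 ^ 4 = (phi 1 ^ 2) ^ 2 := by ring
      rw [this]; exact pow_le_pow_left₀ (by positivity) b1 2
    norm_num at b4 b5
    linarith
  obtain ⟨t, ht, h0⟩ := intermediate_value_Icc (by norm_num : (1 / 2 : ℝ) ≤ 1) hc ⟨h2, h1⟩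
  refine ⟨t, lt_of_lt_of_le (by norm_num) ht.1, ?_⟩
  simp only [hG] at h0
  linarith


/-- values at `0` -/
lemma A_zero_It (t : ℝ) : A (I * t) 0 = (phi (2 * t) : ℂ) := by
  rw [← theta_real]
  unfold A
  rw [mul_zero]
  congr 1
  push_cast; ring

lemma P_zero_It (t : ℝ) : P (I * t) 0 = (phi t : ℂ) := theta_real t

/-- There is a `τ` in the upper half plane with `8 θ₂(0|2τ)⁴ = θ₃(0|2τ)⁴ ≠ 0`. -/
lemma exists_tau : ∃ τ : ℂ, 0 < τ.im ∧ 8 * B τ 0 ^ 4 = A τ 0 ^ 4 ∧ A τ 0 ≠ 0 := by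
  obtain ⟨t, ht, h⟩ := exists_t
  refine ⟨I * t, im_It ht, ?_, ?_⟩
  · have h1 := P_sq (im_It ht) 0
    rw [A_zero_It, P_zero_It] at h1
    rw [A_zero_It]
    have h2 : B (I * t) 0 ^ 2 = (phi t : ℂ) ^ 2 - (phi (2 * t) : ℂ) ^ 2 := by
      linear_combination -h1
    have h3 : B (I * t) 0 ^ 4 = ((phi t : ℂ) ^ 2 - (phi (2 * t) : ℂ) ^ 2) ^ 2 := by
      rw [← h2]; ring
    rw [h3]
    exact_mod_cast h
  · rw [A_zero_It]
    have := one_le_phi (t := 2 * t) (by linarith)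
    intro h0
    have h1 : phi (2 * t) = 0 := by exact_mod_cast h0
    linarith

lemma R_add_one (τ z : ℂ) : R τ (z + 1) = -R τ z := by
  unfold R
  rw [show z + 1 + τ / 2 = (z + τ / 2) + 1 by ring, jacobiTheta₂_add_left,
    show π * I * τ / 4 + π * I * (z + 1) = (π * I * τ / 4 + π * I * z) + π * I by ring,
    Complex.exp_add, Complex.exp_pi_mul_I]
  ring

lemma P_add_one (τ z : ℂ) : P τ (z + 1) = P τ z := jacobiTheta₂_add_left z τ

lemma diff_P {τ : ℂ} (hτ : 0 < τ.im) : Differentiable ℂ (P τ) := fun z =>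
  differentiableAt_jacobiTheta₂_fst z hτ

lemma diff_Q {τ : ℂ} (hτ : 0 < τ.im) : Differentiable ℂ (Q τ) := by
  have := diff_P hτ
  unfold Q
  fun_prop

lemma diff_R {τ : ℂ} (hτ : 0 < τ.im) : Differentiable ℂ (R τ) := by
  have h := diff_P hτ
  have h2 : Differentiable ℂ fun z => P τ (z + τ / 2) := by fun_prop
  have h3 : Differentiable ℂ fun z : ℂ => cexp (π * I * τ / 4 + π * I * z) := by fun_prop
  exact h3.mul h2

lemma diff_S {τ : ℂ} (hτ : 0 < τ.im) : Differentiable ℂ (S τ) := by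
  have := diff_R hτ
  unfold S
  fun_prop

lemma eq_of_codiscrete {F G : ℂ → ℂ} (hF : Continuous F) (hG : Continuous G)
    (h : ∀ᶠ z in codiscrete ℂ, F z = G z) (z : ℂ) : F z = G z := by
  have h1 : ∀ᶠ w in 𝓝[≠] z, F w = G w := by
    have := mem_codiscrete.1 h z
    rw [disjoint_principal_right, compl_compl] at this
    exact this
  have h2 : Tendsto F (𝓝[≠] z) (𝓝 (F z)) := (hF.tendsto z).mono_left nhdsWithin_le_nhds
  have h3 : Tendsto G (𝓝[≠] z) (𝓝 (G z)) := (hG.tendsto z).mono_left nhdsWithin_le_nhds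
  exact tendsto_nhds_unique (h2.congr' h1) h3

lemma nonconst_div {F D : ℂ → ℂ} (hF : Differentiable ℂ F) (hD : Differentiable ℂ D)
    (hD0 : ∃ z, D z ≠ 0) (h : ∀ c : ℂ, ∃ z, F z ≠ c * D z) :
    (Meromorphic fun z => F z / D z) ∧ ∀ c : ℂ, ¬ ∀ᶠ z in codiscrete ℂ, F z / D z = c := by
  refine ⟨fun z => ((hF.analyticAt z).meromorphicAt).div ((hD.analyticAt z).meromorphicAt), ?_⟩
  intro c hc
  obtain ⟨z0, hz0⟩ := hD0
  have hDc : ∀ᶠ z in codiscrete ℂ, D z ≠ 0 := by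
    exact AnalyticOnNhd.preimage_zero_mem_codiscrete (f := D) (fun z _ => hD.analyticAt z) hz0
  obtain ⟨z1, hz1⟩ := h c
  apply hz1
  refine eq_of_codiscrete (F := F) (G := fun z => c * D z) hF.continuous (continuous_const.mul hD.continuous) ?_ z1
  filter_upwards [hc, hDc] with z h1 h2
  rw [← h1, div_mul_cancel₀ _ h2]

theorem solution : ∃ f g h : ℂ → ℂ,
    (Meromorphic f ∧ ∀ c : ℂ, ¬ ∀ᶠ z in codiscrete ℂ, f z = c) ∧
    (Meromorphic g ∧ ∀ c : ℂ, ¬ ∀ᶠ z in codiscrete ℂ, g z = c) ∧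
    (Meromorphic h ∧ ∀ c : ℂ, ¬ ∀ᶠ z in codiscrete ℂ, h z = c) ∧
    (∀ᶠ z in codiscrete ℂ, f z ^ 8 + g z ^ 8 + h z ^ 8 = 1) := by
  obtain ⟨τ, hτ, hk, ha⟩ := exists_tau
  have hb : B τ 0 ≠ 0 := by
    intro h0
    rw [h0] at hk
    exact ha (pow_eq_zero_iff (n := 4) (by norm_num) |>.1 (by rw [← hk]; norm_num))
  set a := A τ 0 with hadef
  set b := B τ 0 with hbdef
  have hP0 : P τ 0 ^ 2 = a ^ 2 + b ^ 2 := by rw [P_sq hτ]; ring
  have hQ0 : Q τ 0 ^ 2 = a ^ 2 - b ^ 2 := by rw [Q_sq hτ]; ring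
  have hR0 : R τ 0 ^ 2 = 2 * a * b := by rw [R_sq hτ]; ring
  have hS0 : S τ 0 = 0 := by
    have : S τ 0 ^ 2 = 0 := by rw [S_sq hτ]; ring
    exact pow_eq_zero_iff (n := 2) (by norm_num) |>.1 this
  have hPh : P τ (1 / 2) = Q τ 0 := by unfold Q; rw [zero_add]
  have hQh : Q τ (1 / 2) = P τ 0 := by
    unfold Q
    rw [show (1 / 2 : ℂ) + 1 / 2 = 0 + 1 by norm_num, P_add_one]
  have hRh : R τ (1 / 2) = 0 := by rw [← hS0]; unfold S; rw [zero_add]
  have hSh : S τ (1 / 2) = -R τ 0 := by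
    unfold S
    rw [show (1 / 2 : ℂ) + 1 / 2 = 0 + 1 by norm_num, R_add_one]
  have hR0ne : R τ 0 ≠ 0 := by
    intro h0
    rw [h0] at hR0
    have : a * b = 0 := by linear_combination -hR0 / 2
    exact (mul_ne_zero ha hb) this
  have hPQ : P τ 0 ^ 2 ≠ Q τ 0 ^ 2 := by
    rw [hP0, hQ0]
    intro h0
    have : b ^ 2 = 0 := by linear_combination h0 / 2
    exact hb (pow_eq_zero_iff (n := 2) (by norm_num) |>.1 this)
  set p := P τ 0
  set q := Q τ 0
  set r := R τ 0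
  have dP := diff_P hτ
  have dQ := diff_Q hτ
  have dR := diff_R hτ
  have dS := diff_S hτ
  set D : ℂ → ℂ := fun z => P τ z + I * Q τ z with hD
  have dD : Differentiable ℂ D := by simp only [hD]; fun_prop
  have hI : I ^ 2 = -1 := Complex.I_sq
  have h1I : (1 + I : ℂ) ≠ 0 := by
    intro h
    have := congrArg Complex.re h
    simp at this
  have h1I' : (1 - I : ℂ) ≠ 0 := by
    intro h
    have := congrArg Complex.re h
    simp at this
  have hD0 : ∃ z, D z ≠ 0 := by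
    by_contra hcon
    push Not at hcon
    have h1 := hcon 0
    have h2 := hcon (1 / 2)
    simp only [hD, hPh, hQh] at h1 h2
    apply hPQ
    change p + I * q = 0 at h1
    linear_combination (p) * h1 - q * h2
  obtain ⟨ζ, hζ⟩ : ∃ ζ : ℂ, ζ ^ 8 = -1 := ⟨cexp (π * I / 8), by
    rw [← Complex.exp_nat_mul, ← Complex.exp_pi_mul_I]; congr 1; push_cast; ring⟩
  have hζ0 : ζ ≠ 0 := by rintro rfl; norm_num at hζ
  refine ⟨fun z => (R τ z + S τ z) / D z, fun z => (R τ z - S τ z) / D z,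
    fun z => (ζ * (P τ z - I * Q τ z)) / D z, ?_, ?_, ?_, ?_⟩
  · refine nonconst_div (by fun_prop) dD hD0 fun c => ?_
    by_contra hcon
    push Not at hcon
    have h1 := hcon 0
    have h2 := hcon (1 / 2)
    simp only [hD, hPh, hQh, hS0, hRh, hSh] at h1 h2
    change r + 0 = c * (p + I * q) at h1
    change 0 + -r = c * (q + I * p) at h2
    have h3 : c * (1 + I) * (p + q) = 0 := by linear_combination -h1 - h2
    have hc : c ≠ 0 := by
      rintro rfl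
      exact hR0ne (by linear_combination h1)
    rcases mul_eq_zero.1 h3 with h4 | h4
    · exact (mul_ne_zero hc h1I) h4
    · exact hPQ (by linear_combination (p - q) * h4)
  · refine nonconst_div (by fun_prop) dD hD0 fun c => ?_
    by_contra hcon
    push Not at hcon
    have h1 := hcon 0
    have h2 := hcon (1 / 2)
    simp only [hD, hPh, hQh, hS0, hRh, hSh] at h1 h2
    change r - 0 = c * (p + I * q) at h1
    change 0 - -r = c * (q + I * p) at h2
    have h3 : c * (1 - I) * (p - q) = 0 := by linear_combination -h1 + h2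
    have hc : c ≠ 0 := by
      rintro rfl
      exact hR0ne (by linear_combination h1)
    rcases mul_eq_zero.1 h3 with h4 | h4
    · exact (mul_ne_zero hc h1I') h4
    · exact hPQ (by linear_combination (p + q) * h4)
  · refine nonconst_div (by fun_prop) dD hD0 fun c => ?_
    by_contra hcon
    push Not at hcon
    have h1 := hcon 0
    have h2 := hcon (1 / 2)
    simp only [hD, hPh, hQh] at h1 h2
    change ζ * (p - I * q) = c * (p + I * q) at h1
    change ζ * (q - I * p) = c * (q + I * p) at h2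
    have h3 : ζ * (2 * I) * (p ^ 2 - q ^ 2) = 0 := by
      linear_combination (q + I * p) * h1 - (p + I * q) * h2
    rcases mul_eq_zero.1 h3 with h4 | h4
    · exact (mul_ne_zero hζ0 (mul_ne_zero two_ne_zero I_ne_zero)) h4
    · exact hPQ (by linear_combination h4)
  · have hDc : ∀ᶠ z in codiscrete ℂ, D z ≠ 0 := by
      obtain ⟨z0, hz0⟩ := hD0
      exact AnalyticOnNhd.preimage_zero_mem_codiscrete (f := D) (fun z _ => dD.analyticAt z) hz0
    filter_upwards [hDc] with z hz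
    have := main_identity hτ hk z
    rw [div_pow, div_pow, div_pow, ← add_div, ← add_div, div_eq_one_iff_eq (pow_ne_zero _ hz), mul_pow, hζ]
    simp only [hD]
    linear_combination this

lemma identity_at {f g h : ℂ → ℂ} (H : ∀ᶠ z in codiscrete ℂ, f z ^ 8 + g z ^ 8 + h z ^ 8 = 1)
    {z : ℂ} (hf : AnalyticAt ℂ f z) (hg : AnalyticAt ℂ g z) (hh : AnalyticAt ℂ h z) :
    f z ^ 8 + g z ^ 8 + h z ^ 8 = 1 := by
  have h1 : ∀ᶠ w in 𝓝[≠] z, f w ^ 8 + g w ^ 8 + h w ^ 8 = 1 := by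
    have := mem_codiscrete.1 H z
    rw [disjoint_principal_right, compl_compl] at this
    exact this
  have h2 : ContinuousAt (fun w => f w ^ 8 + g w ^ 8 + h w ^ 8) z :=
    ((hf.continuousAt.pow 8).add (hg.continuousAt.pow 8)).add (hh.continuousAt.pow 8)
  have h3 : Tendsto (fun w => f w ^ 8 + g w ^ 8 + h w ^ 8) (𝓝[≠] z)
      (𝓝 (f z ^ 8 + g z ^ 8 + h z ^ 8)) := h2.tendsto.mono_left nhdsWithin_le_nhds
  exact tendsto_nhds_unique (h3.congr' h1) tendsto_const_nhds |>.symm ▸ rfl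

/-- **The equation `f ^ 8 + g ^ 8 + h ^ 8 = 1` has a non-constant meromorphic solution on `ℂ`.**
There are meromorphic functions `f, g, h` on the complex plane, none of which is constant (as a
meromorphic function, i.e. off any closed discrete set), with `f ^ 8 + g ^ 8 + h ^ 8 = 1` as
meromorphic functions (off a closed discrete set), and at every point where all three are
holomorphic. -/
theorem result : ∃ f g h : ℂ → ℂ,
    Meromorphic f ∧ Meromorphic g ∧ Meromorphic h ∧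
    (∀ c : ℂ, ¬ ∀ᶠ z in codiscrete ℂ, f z = c) ∧
    (∀ c : ℂ, ¬ ∀ᶠ z in codiscrete ℂ, g z = c) ∧
    (∀ c : ℂ, ¬ ∀ᶠ z in codiscrete ℂ, h z = c) ∧
    (∀ᶠ z in codiscrete ℂ, f z ^ 8 + g z ^ 8 + h z ^ 8 = 1) ∧
    (∀ z : ℂ, AnalyticAt ℂ f z → AnalyticAt ℂ g z → AnalyticAt ℂ h z →
      f z ^ 8 + g z ^ 8 + h z ^ 8 = 1) := by
  obtain ⟨f, g, h, ⟨hf, hf'⟩, ⟨hg, hg'⟩, ⟨hh, hh'⟩, H⟩ := solution
  exact ⟨f, g, h, hf, hg, hh, hf', hg', hh', H, fun z h1 h2 h3 => identity_at H h1 h2 h3⟩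

end Pool.Agent.Results.MP_99c308_an.DegreeEight
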